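import Pool.Agent.Helper74.GenIff

/-!
# One catalyst and one membrane: every recursively enumerable set of numbers is generated

Cell-like P systems with catalytic and noncooperative rules, as in the problem: a finite alphabet
`O` with a set `C` of catalysts, a rooted tree of membranes (the root is the skin), for every
region a finite multiset of objects and a finite set of rules `a → v` and `c a → c v`
(`a` and the objects of `v` are not catalysts, `c` is one), the targets here, out, in, maximal
parallelism, and an output region which is an elementary membrane or the environment.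
`NP m r` is the family of the sets `N(P)` for the systems `P` of degree at most `m` with at most `r`
catalyst objects in the initial configuration, and we prove: `NP 1 1` contains every recursively
enumerable set of natural numbers.  So already `NP_1(cat_1) = NRE`, not only `NP_*(cat_1) = NRE`.

The system is explicit (`Pool/Agent/Helper74/BlindMain.lean`, `BlindProg.lean`): one catalyst
with noncooperative rules can run a blind program (finite control, registers which are
incremented and decremented without test for zero, and one final check that all are zero), with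
a register that is squared; and such a program can guess and check the halting computation of a
register machine with tests for zero.
-/

set_option autoImplicit false

open Multiset

namespace Pool.Agent.Results.MP_280e70_lc.OneCatalystOneMembrane

/-- The targets: `here` (the object stays), `out` (it goes to the parent region, from the skin to
the environment), `inner` (it goes to one of the child membranes). -/
inductive Target
  | here
  | out
  | inner

/-- A rule: `lhs → rhs` if `cat = none`, and `c lhs → c rhs` if `cat = some c`. -/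
structure Rule (O : Type) where
  cat : Option O
  lhs : O
  rhs : Multiset (O × Target)

/-- A cell-like P system with catalytic and noncooperative rules. -/
structure PSystem where
  /-- the alphabet -/
  O : Type
  finite : Finite O
  /-- the catalysts -/
  C : Set O
  /-- the degree: the number of membranes (and of regions) -/
  deg : ℕ
  /-- the skin membrane, the root of the tree -/
  skin : Fin deg
  /-- the membrane which contains the membrane `i` directly (and `skin` for `skin`) -/
  parent : Fin deg → Fin deg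
  parent_skin : parent skin = skin
  tree : ∀ i, ∃ k, parent^[k] i = skin
  /-- the initial contents of the regions -/
  w : Fin deg → Multiset O
  /-- the rules of the regions -/
  R : Fin deg → Set (Rule O)
  finite_rules : ∀ i, (R i).Finite
  lhs_rules : ∀ i, ∀ r ∈ R i, r.lhs ∉ C
  cat_rules : ∀ i, ∀ r ∈ R i, ∀ c, r.cat = some c → c ∈ C
  rhs_rules : ∀ i, ∀ r ∈ R i, ∀ x ∈ r.rhs, x.1 ∉ C
  /-- the output region; `none` is the environment -/
  iout : Option (Fin deg)
  elementary_iout : ∀ i, iout = some i → ∀ j, j ≠ skin → parent j ≠ i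

namespace PSystem

variable (P : PSystem)

/-- The membrane `j` is directly inside the membrane `i`. -/
def Child (i j : Fin P.deg) : Prop := j ≠ P.skin ∧ P.parent j = i

/-- The number of catalyst objects in the initial configuration. -/
noncomputable def catalysts : ℕ :=
  open Classical in ∑ i, ((P.w i).filter (fun a => a ∈ P.C)).card

/-- The multiset `U` of rules is applicable in the region `i` with the contents `X`. -/
def App (i : Fin P.deg) (X : Multiset P.O) (U : Multiset (Rule P.O)) : Prop :=
  (∀ r ∈ U, r ∈ P.R i ∧ ((∀ j, ¬ P.Child i j) → ∀ x ∈ r.rhs, x.2 ≠ Target.inner)) ∧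
    U.map Rule.lhs + U.filterMap Rule.cat ≤ X

/-- The objects with the target `t` which are produced by the rules `U`. -/
noncomputable def produced {O : Type} (U : Multiset (Rule O)) (t : Target) : Multiset O :=
  open Classical in U.bind fun r => (r.rhs.filter fun x => x.2 = t).map Prod.fst

/-- A step: `M`, `M'` are the contents of the regions, `e`, `e'` the numbers of objects sent out to
the environment, `U i` is the maximal multiset of rules which is used in the region `i`, and
`D i` are the objects which enter the region `i` from its parent region. -/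
def Step (M : Fin P.deg → Multiset P.O) (e : ℕ) (M' : Fin P.deg → Multiset P.O) (e' : ℕ) :
    Prop :=
  open Classical in
  ∃ (U : Fin P.deg → Multiset (Rule P.O)) (D : Fin P.deg → Multiset P.O),
    (∀ i, P.App i (M i) (U i) ∧ ∀ r, ¬ P.App i (M i) (r ::ₘ U i)) ∧
    D P.skin = 0 ∧
    (∀ i, ∑ j with P.Child i j, D j = produced (U i) Target.inner) ∧
    (∀ i, M' i + (U i).map Rule.lhs = M i + produced (U i) Target.here +
      ∑ j with P.Child i j, produced (U j) Target.out + D i) ∧
    e' = e + (produced (U P.skin) Target.out).card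

/-- No rule is applicable. -/
def Halted (M : Fin P.deg → Multiset P.O) : Prop := ∀ i r, ¬ P.App i (M i) {r}

/-- The set generated by the system: the results of the successful computations. -/
def N : Set ℕ :=
  {n | ∃ M e, Relation.ReflTransGen
      (fun s t : (Fin P.deg → Multiset P.O) × ℕ => ¬ P.Halted s.1 ∧ P.Step s.1 s.2 t.1 t.2)
      (P.w, 0) (M, e) ∧ P.Halted M ∧
    (P.iout = none → n = e) ∧ ∀ i, P.iout = some i → n = (M i).card}

end PSystem

/-- `NP_m(cat_r)` -/
def NP (m r : ℕ) : Set (Set ℕ) := {S | ∃ P : PSystem, P.deg ≤ m ∧ P.catalysts ≤ r ∧ P.N = S}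

/-! ## The proof -/

section proof

open Pool.Agent.Helper74

variable {A : Type}

/-- targets of the helper files -/
def tgt : Fin 3 → Target := fun t => if t = 0 then Target.here else
  if t = 1 then Target.out else Target.inner

theorem tgt_here (t : Fin 3) : tgt t = Target.here ↔ t = 0 := by
  fin_cases t <;> simp [tgt]

theorem tgt_out (t : Fin 3) : tgt t = Target.out ↔ t = 1 := by
  fin_cases t <;> simp [tgt]

theorem tgt_inner (t : Fin 3) : tgt t = Target.inner ↔ t = 2 := by
  fin_cases t <;> simp [tgt]

/-- rules of the helper files -/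
def cv (ρ : RuleT A) : Rule A := ⟨ρ.1, ρ.2.1, ρ.2.2.map (fun x => (x.1, tgt x.2))⟩

theorem tgt_inj : Function.Injective tgt := by
  intro a b
  fin_cases a <;> fin_cases b <;> simp [tgt]

theorem cv_inj : Function.Injective (cv (A := A)) := by
  intro ρ ρ' h
  rcases ρ with ⟨a, b, v⟩
  rcases ρ' with ⟨a', b', v'⟩
  simp only [cv, Rule.mk.injEq] at h
  obtain ⟨h1, h2, h3⟩ := h
  have h4 : Function.Injective (fun x : A × Fin 3 => (x.1, tgt x.2)) := by
    rintro ⟨x, t⟩ ⟨x', t'⟩ h
    simp only [Prod.mk.injEq] at h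
    rw [h.1, tgt_inj h.2]
  rw [h1, h2, Multiset.map_injective h4 h3]

open Classical in
theorem produced_here (U : Multiset (RuleT A)) :
    PSystem.produced (U.map cv) Target.here = U.bind (fun ρ => here ρ.2.2) := by
  unfold PSystem.produced
  rw [Multiset.bind_map]
  congr 1
  ext1 ρ
  unfold cv Pool.Agent.Helper74.here
  simp only
  rw [Multiset.filter_map, Multiset.map_map]
  congr 1
  apply Multiset.filter_congr
  intro x _
  simp [tgt_here]

open Classical in
theorem produced_out (U : Multiset (RuleT A)) :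
    PSystem.produced (U.map cv) Target.out = U.bind (fun ρ => outs ρ.2.2) := by
  unfold PSystem.produced
  rw [Multiset.bind_map]
  congr 1
  ext1 ρ
  unfold cv Pool.Agent.Helper74.outs
  simp only
  rw [Multiset.filter_map, Multiset.map_map]
  congr 1
  apply Multiset.filter_congr
  intro x _
  simp [tgt_out]

theorem lift_rules {Rs : Set (RuleT A)} (U' : Multiset (Rule A)) (h : ∀ r ∈ U', r ∈ cv '' Rs) :
    ∃ U : Multiset (RuleT A), U' = U.map cv ∧ ∀ ρ ∈ U, ρ ∈ Rs := by
  induction U' using Multiset.induction_on with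
  | empty => exact ⟨0, rfl, by simp⟩
  | cons r s ih =>
    obtain ⟨U, rfl, hU⟩ := ih (fun r hr => h r (by simp [hr]))
    obtain ⟨ρ, hρ, rfl⟩ := h r (by simp)
    refine ⟨ρ ::ₘ U, by simp, ?_⟩
    intro ρ' hρ'
    rcases Multiset.mem_cons.1 hρ' with rfl | h'
    · exact hρ
    · exact hU _ h'

theorem filterMap_cv (U : Multiset (RuleT A)) :
    (U.map cv).filterMap Rule.cat = U.filterMap (fun ρ => ρ.1) := by
  rw [Multiset.filterMap_map]
  rfl

theorem map_lhs_cv (U : Multiset (RuleT A)) :
    (U.map cv).map Rule.lhs = U.map (fun ρ => ρ.2.1) := by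
  rw [Multiset.map_map]
  rfl

variable (Rs : Set (RuleT A)) (hfin : Rs.Finite) (c : A) (hR : OneCat Rs c) (X0 : Multiset A)
  (hA : Finite A)

/-- the system with one membrane -/
abbrev sys : PSystem where
  O := A
  finite := hA
  C := {c}
  deg := 1
  skin := 0
  parent := id
  parent_skin := rfl
  tree := fun _ => ⟨0, Subsingleton.elim _ _⟩
  w := fun _ => X0
  R := fun _ => cv '' Rs
  finite_rules := fun _ => hfin.image _
  lhs_rules := by
    rintro _ _ ⟨ρ, hρ, rfl⟩
    exact hR.lhs ρ hρ
  cat_rules := by
    rintro _ _ ⟨ρ, hρ, rfl⟩ d hd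
    rcases hR.cat ρ hρ with h | h
    · rw [show (cv ρ).cat = ρ.1 from rfl, h] at hd
      cases hd
    · rw [show (cv ρ).cat = ρ.1 from rfl, h, Option.some_inj] at hd
      exact hd.symm
  rhs_rules := by
    rintro _ _ ⟨ρ, hρ, rfl⟩ x hx
    obtain ⟨y, hy, rfl⟩ := Multiset.mem_map.1 hx
    exact hR.noc ρ hρ y hy
  iout := none
  elementary_iout := by
    intro i hi
    cases hi

theorem no_child (i j : Fin 1) : ¬ (sys Rs hfin c hR X0 hA).Child i j := by
  rintro ⟨h, -⟩
  exact h (Subsingleton.elim _ _)

theorem app_sys (i : Fin 1) (X : Multiset A) (U : Multiset (RuleT A)) :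
    (sys Rs hfin c hR X0 hA).App i X (U.map cv) ↔ Pool.Agent.Helper74.App Rs X U := by
  unfold PSystem.App Pool.Agent.Helper74.App
  rw [filterMap_cv, map_lhs_cv]
  refine and_congr_left' ?_
  constructor
  · intro h ρ hρ
    obtain ⟨h1, h2⟩ := h (cv ρ) (Multiset.mem_map_of_mem _ hρ)
    obtain ⟨ρ', hρ', he⟩ := h1
    rw [cv_inj he] at hρ'
    exact ⟨hρ', hR.tgt ρ hρ'⟩
  · intro h r hr
    obtain ⟨ρ, hρ, rfl⟩ := Multiset.mem_map.1 hr
    refine ⟨⟨ρ, (h ρ hρ).1, rfl⟩, fun _ x hx => ?_⟩
    obtain ⟨y, hy, rfl⟩ := Multiset.mem_map.1 hx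
    intro h3
    exact (h ρ hρ).2 y hy ((tgt_inner y.2).1 h3)

theorem app_lift (i : Fin 1) (X : Multiset A) (U' : Multiset (Rule A))
    (h : (sys Rs hfin c hR X0 hA).App i X U') :
    ∃ U : Multiset (RuleT A), U' = U.map cv ∧ Pool.Agent.Helper74.App Rs X U := by
  obtain ⟨U, rfl, -⟩ := lift_rules (Rs := Rs) U' (fun r hr => (h.1 r hr).1)
  exact ⟨U, rfl, (app_sys Rs hfin c hR X0 hA i X U).1 h⟩

theorem max_sys (i : Fin 1) (X : Multiset A) (U : Multiset (RuleT A)) :
    (∀ r, ¬ (sys Rs hfin c hR X0 hA).App i X (r ::ₘ U.map cv)) ↔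
      ∀ ρ, ¬ Pool.Agent.Helper74.App Rs X (ρ ::ₘ U) := by
  constructor
  · intro h ρ hρ
    apply h (cv ρ)
    rw [← Multiset.map_cons]
    exact (app_sys Rs hfin c hR X0 hA i X _).2 hρ
  · intro h r hr
    obtain ⟨W, hW, hW'⟩ := app_lift Rs hfin c hR X0 hA i X _ hr
    have h1 : r ∈ W.map cv := by
      rw [← hW]
      exact Multiset.mem_cons_self _ _
    obtain ⟨ρ, hρ, rfl⟩ := Multiset.mem_map.1 h1
    obtain ⟨V, rfl⟩ := Multiset.exists_cons_of_mem hρ
    rw [Multiset.map_cons, Multiset.cons_inj_right] at hW
    have h2 : U = V := Multiset.map_injective cv_inj hW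
    rw [← h2] at hW'
    exact h ρ hW'

theorem halted_sys (M : Fin 1 → Multiset A) :
    (sys Rs hfin c hR X0 hA).Halted M ↔ Halt Rs (M 0) := by
  have h := max_sys Rs hfin c hR X0 hA 0 (M 0) 0
  rw [Multiset.map_zero] at h
  unfold PSystem.Halted Halt
  constructor
  · intro h1
    exact h.1 (h1 0)
  · intro h1 i r
    rw [show i = 0 from Subsingleton.elim _ _]
    exact h.2 h1 r

variable [DecidableEq A]

theorem step_sys (M M' : Fin 1 → Multiset A) (e e' : ℕ) :
    (sys Rs hfin c hR X0 hA).Step M e M' e' ↔
      ∃ o, Pool.Agent.Helper74.Step Rs (M 0) (M' 0) o ∧ e' = e + o := by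
  classical
  have hs : ∀ (i : Fin 1), (Finset.univ.filter fun j => (sys Rs hfin c hR X0 hA).Child i j) = ∅ := by
    intro i
    rw [Finset.filter_eq_empty_iff]
    intro j _
    exact no_child Rs hfin c hR X0 hA i j
  unfold PSystem.Step
  simp only [hs, Finset.sum_empty, add_zero]
  constructor
  · rintro ⟨U', D, hU, hD, -, h4, h5⟩
    obtain ⟨U, hU1, hU2⟩ := app_lift Rs hfin c hR X0 hA 0 _ _ (hU 0).1
    have hmax := (hU 0).2
    rw [hU1, max_sys] at hmax
    have h4' := h4 0
    have h7 : M' 0 + U.map (fun ρ => ρ.2.1) = M 0 + U.bind (fun ρ => here ρ.2.2) := by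
      rw [hU1, map_lhs_cv, produced_here, hD, add_zero] at h4'
      exact h4'
    refine ⟨_, ⟨U, hU2, hmax, ?_, rfl⟩, ?_⟩
    · obtain ⟨Z, hZ⟩ := Multiset.le_iff_exists_add.1
        (le_trans (Multiset.le_add_right _ _) hU2.2)
      rw [hZ, add_tsub_cancel_left]
      rw [hZ, add_assoc, add_comm (M' 0), add_right_inj] at h7
      exact h7
    · rw [h5, hU1, produced_out]
  · rintro ⟨o, ⟨U, hU, hmax, h1, h2⟩, rfl⟩
    refine ⟨fun _ => U.map cv, fun _ => 0, ?_, rfl, ?_, ?_, ?_⟩
    · intro i
      rw [show i = 0 from Subsingleton.elim _ _]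
      exact ⟨(app_sys Rs hfin c hR X0 hA 0 (M 0) U).2 hU,
        (max_sys Rs hfin c hR X0 hA 0 (M 0) U).2 hmax⟩
    · intro _
      symm
      unfold PSystem.produced
      rw [Multiset.bind_map]
      rw [Multiset.bind_congr (g := fun _ => 0)]
      · simp
      · intro ρ hρ
        rw [Multiset.map_eq_zero, Multiset.filter_eq_nil]
        intro x hx h3
        obtain ⟨y, hy, rfl⟩ := Multiset.mem_map.1 hx
        exact (hU.1 ρ hρ).2 y hy ((tgt_inner y.2).1 h3)
    · intro i
      rw [show i = 0 from Subsingleton.elim _ _, h1, map_lhs_cv, produced_here]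
      obtain ⟨Z, hZ⟩ := Multiset.le_iff_exists_add.1
        (le_trans (Multiset.le_add_right _ _) hU.2)
      rw [hZ, add_tsub_cancel_left]
      abel
    · rw [produced_out, h2]

theorem halt_step {X X' : Multiset A} {o : ℕ} (h : Halt Rs X)
    (hs : Pool.Agent.Helper74.Step Rs X X' o) : X' = X ∧ o = 0 := by
  obtain ⟨U, hU, -, h1, h2⟩ := hs
  have h0 : U = 0 := by
    by_contra hne
    obtain ⟨ρ, hρ⟩ := Multiset.exists_mem_of_ne_zero hne
    obtain ⟨W, rfl⟩ := Multiset.exists_cons_of_mem hρ
    apply h ρ
    refine ⟨?_, ?_⟩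
    · intro ρ' hρ'
      rw [Multiset.mem_cons] at hρ'
      rcases hρ' with rfl | h3
      · exact hU.1 ρ' (Multiset.mem_cons_self _ _)
      · exact absurd h3 (Multiset.notMem_zero _)
    · refine le_trans (add_le_add (Multiset.map_le_map ?_) (Multiset.filterMap_le_filterMap _ ?_)) hU.2
      · exact (Multiset.cons_le_cons_iff _).2 (Multiset.zero_le _)
      · exact (Multiset.cons_le_cons_iff _).2 (Multiset.zero_le _)
  subst h0
  simp at h1 h2
  exact ⟨h1, h2⟩

theorem run_of_hc (T : ℕ) : ∀ (X : Multiset A) (e n : ℕ), HC Rs T X n →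
    ∃ M : Fin 1 → Multiset A, Relation.ReflTransGen
      (fun s t : (Fin 1 → Multiset A) × ℕ => ¬ (sys Rs hfin c hR X0 hA).Halted s.1 ∧
        (sys Rs hfin c hR X0 hA).Step s.1 s.2 t.1 t.2) (fun _ => X, e) (M, e + n) ∧
      (sys Rs hfin c hR X0 hA).Halted M := by
  induction T with
  | zero =>
    rintro X e n ⟨h1, rfl⟩
    exact ⟨fun _ => X, Relation.ReflTransGen.refl, (halted_sys Rs hfin c hR X0 hA _).2 h1⟩
  | succ T ih =>
    rintro X e n ⟨X', o, n', h1, h2, rfl⟩
    by_cases hh : Halt Rs X
    · obtain ⟨rfl, rfl⟩ := halt_step Rs hh h1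
      rw [zero_add]
      exact ih X' e n' h2
    · obtain ⟨M, hM, hM'⟩ := ih X' (e + o) n' h2
      refine ⟨M, Relation.ReflTransGen.head (b := (fun _ => X', e + o)) ⟨?_, ?_⟩ ?_, hM'⟩
      · rw [halted_sys]
        exact hh
      · rw [step_sys]
        exact ⟨o, h1, rfl⟩
      · rw [← add_assoc]
        exact hM

theorem hc_of_run {s t : (Fin 1 → Multiset A) × ℕ} (h : Relation.ReflTransGen
      (fun s t : (Fin 1 → Multiset A) × ℕ => ¬ (sys Rs hfin c hR X0 hA).Halted s.1 ∧
        (sys Rs hfin c hR X0 hA).Step s.1 s.2 t.1 t.2) s t)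
    (ht : (sys Rs hfin c hR X0 hA).Halted t.1) : ∃ T n, HC Rs T (s.1 0) n ∧ t.2 = s.2 + n := by
  induction h using Relation.ReflTransGen.head_induction_on with
  | refl => exact ⟨0, 0, ⟨(halted_sys Rs hfin c hR X0 hA _).1 ht, rfl⟩, rfl⟩
  | head h1 _ ih =>
    obtain ⟨T, n, h2, h3⟩ := ih
    obtain ⟨o, h4, h5⟩ := (step_sys Rs hfin c hR X0 hA _ _ _ _).1 h1.2
    exact ⟨T + 1, o + n, ⟨_, o, n, h4, h2, rfl⟩, by rw [h3, h5, add_assoc]⟩

theorem n_sys : (sys Rs hfin c hR X0 hA).N = {n | ∃ T, HC Rs T X0 n} := by
  ext n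
  constructor
  · rintro ⟨M, e, h1, h2, h3, -⟩
    obtain ⟨T, n', h4, h5⟩ := hc_of_run Rs hfin c hR X0 hA h1 h2
    refine ⟨T, ?_⟩
    have h6 : e = n' := by simpa using h5
    rw [h3 rfl, h6]
    exact h4
  · rintro ⟨T, hT⟩
    obtain ⟨M, hM, hM'⟩ := run_of_hc Rs hfin c hR X0 hA T X0 0 n hT
    refine ⟨M, n, by simpa using hM, hM', fun _ => rfl, fun i hi => ?_⟩
    cases hi

end proof

/-- Every recursively enumerable set of natural numbers is in `NP_1(cat_1)`. -/
theorem result (S : Set ℕ) (hS : REPred (fun n => n ∈ S)) : S ∈ NP 1 1 := by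
  classical
  obtain ⟨A, hA1, hA2, Rs, hfin, c, hR, X0, hX0, hgen⟩ :=
    Pool.Agent.Helper74.gen_iff_cat S hS
  refine ⟨sys Rs hfin c hR X0 hA2, le_rfl, ?_, ?_⟩
  · have key : ∀ inst : DecidablePred (fun a => a ∈ ({c} : Set A)),
        (@Multiset.filter A (fun a => a ∈ ({c} : Set A)) inst X0).card ≤ 1 := by
      intro inst
      have h1 : @Multiset.filter A (fun a => a ∈ ({c} : Set A)) inst X0 =
          X0.filter (fun a => c = a) := by
        apply Multiset.filter_congr
        intro x _
        simp [eq_comm]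
      rw [h1, ← Multiset.countP_eq_card_filter]
      exact hX0
    exact (Fin.sum_univ_one _).trans_le (key _)
  · rw [n_sys]
    ext n
    exact (hgen n).symm

end Pool.Agent.Results.MP_280e70_lc.OneCatalystOneMembrane
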